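import Mathlib
import Pool.Agent.H68.CactusDefs

namespace Pool.Agent.Results.MP_2b0b8a_al.Bigger
open Pool.Agent.H68.CactusDefs

/-- reversal of coordinates on `A^r` -/
def rev (A : Type) [Group A] (r : ℕ) : MulAut (Fin r → A) where
  toFun x i := x i.rev
  invFun x i := x i.rev
  left_inv x := by simp
  right_inv x := by simp
  map_mul' _ _ := rfl

lemma rev_sq (A : Type) [Group A] (r : ℕ) : rev A r ^ 2 = 1 := by
  ext x i; simp [rev, sq]

/-- the action of `ℤ/2` on `A^r` whose nontrivial element reverses the coordinates -/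
def revAct (A : Type) [Group A] (r : ℕ) : Multiplicative (ZMod 2) →* MulAut (Fin r → A) where
  toFun x := rev A r ^ x.toAdd.val
  map_one' := by simp
  map_mul' x y := by
    rw [← pow_add, toAdd_mul, ZMod.val_add, ← pow_eq_pow_mod _ (rev_sq A r)]

/-- `W [r_s, …, r_1]` is the iterated wreath-type product `W(r_1, …, r_s)` -/
def W : List ℕ → GrpCat.{0}
  | [] => GrpCat.of (Multiplicative (ZMod 2))
  | r :: l => GrpCat.of ((Fin r → W l) ⋊[revAct (W l) r] Multiplicative (ZMod 2))

lemma cardW0 : Nat.card (W []) = 2 := by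
  change Nat.card (Multiplicative (ZMod 2)) = 2
  simp

lemma cardW (r : ℕ) (l : List ℕ) : Nat.card (W (r :: l)) = Nat.card (W l) ^ r * 2 := by
  change Nat.card ((Fin r → W l) ⋊[revAct (W l) r] Multiplicative (ZMod 2)) = _
  rw [SemidirectProduct.card, Nat.card_fun]
  simp

lemma cardW_pos (l : List ℕ) : 0 < Nat.card (W l) := by
  induction l with
  | nil => rw [cardW0]; norm_num
  | cons r l ih => rw [cardW]; positivity

lemma cardW_le (l : List ℕ) (h : ∀ r ∈ l, 2 ≤ r) (hp : 2 * l.prod ≤ 10) :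
    Nat.card (W l) ≤ 128 := by
  rcases l with _ | ⟨a, _ | ⟨b, _ | ⟨c, l⟩⟩⟩
  · rw [cardW0]; norm_num
  · have := h a (by simp)
    simp at hp
    rw [cardW, cardW0]
    have : a ≤ 5 := by omega
    interval_cases a <;> norm_num
  · have ha := h a (by simp)
    have hb := h b (by simp)
    simp at hp
    have : a = 2 := by nlinarith
    subst this
    have : b = 2 := by omega
    subst this
    rw [cardW, cardW, cardW0]; norm_num
  · exfalso
    have ha := h a (by simp)
    have hb := h b (by simp)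
    have hc := h c (by simp)
    have hl : 1 ≤ l.prod := List.one_le_prod_of_one_le fun x hx =>
      le_trans (by norm_num) (h x (by simp [hx]))
    simp only [List.prod_cons] at hp
    have : 2 * (2 * (2 * 1)) ≤ a * (b * (c * l.prod)) := by gcongr
    omega

lemma ext_fin {G : Type} [Group G] (S : Set G) (x : G) (hS : (Subgroup.closure S : Set G).Finite)
    (hx : x * x = 1) (hn : ∀ s ∈ S, x * s * x ∈ Subgroup.closure S) :
    (Subgroup.closure (insert x S) : Set G).Finite := by
  have hc : ∀ g ∈ Subgroup.closure S, x * g * x ∈ Subgroup.closure S := by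
    intro g hg
    induction hg using Subgroup.closure_induction with
    | mem s hs => exact hn s hs
    | one => simp [hx]
    | mul a b _ _ ha hb =>
      have : x * (a * b) * x = x * a * x * (x * b * x) := by
        simp only [mul_assoc]; rw [← mul_assoc x x, hx, one_mul]
      rw [this]; exact mul_mem ha hb
    | inv a _ ha =>
      have : x * a⁻¹ * x = (x * a * x)⁻¹ := by
        simp [mul_assoc, inv_eq_of_mul_eq_one_right hx]
      rw [this]; exact inv_mem ha
  refine (hS.union (hS.image (· * x))).subset fun g hg => ?_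
  have hi : x⁻¹ = x := inv_eq_of_mul_eq_one_right hx
  have step : ∀ g, g ∈ Subgroup.closure S ∨ g * x ∈ Subgroup.closure S →
      g ∈ (Subgroup.closure S : Set G) ∪ (· * x) '' (Subgroup.closure S : Set G) := by
    rintro g (h | h)
    · exact Or.inl h
    · exact Or.inr ⟨g * x, h, by simp [mul_assoc, hx]⟩
  apply step
  induction hg using Subgroup.closure_induction with
  | mem s hs =>
    rcases hs with rfl | hs
    · right; simp [hx]
    · left; exact Subgroup.subset_closure hs
  | one => left; exact one_mem _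
  | mul a b _ _ ha hb =>
    rcases ha with ha | ha <;> rcases hb with hb | hb
    · left; exact mul_mem ha hb
    · right; rw [mul_assoc]; exact mul_mem ha hb
    · right
      have : a * b * x = a * x * (x * b * x) := by
        simp only [mul_assoc]; rw [← mul_assoc x x, hx, one_mul]
      rw [this]; exact mul_mem ha (hc _ hb)
    · left
      have : a * b = a * x * (x * (b * x) * x) := by
        simp only [mul_assoc]; rw [← mul_assoc x x, hx, one_mul, mul_one]
      rw [this]; exact mul_mem ha (hc _ hb)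
  | inv a _ ha =>
    rcases ha with ha | ha
    · left; exact inv_mem ha
    · right
      have : a⁻¹ * x = x * (a * x)⁻¹ * x := by simp [hi, ← mul_assoc, hx]
      rw [this]; exact hc _ (inv_mem ha)

def s (p q : ℕ) (h : 1 ≤ p ∧ p < q ∧ q ≤ 10) : J 10 :=
  PresentedGroup.of (rels := rels 10) ⟨(p, q), h⟩

lemma ss {p q : ℕ} {h} : s p q h * s p q h = 1 := by
  have := PresentedGroup.one_of_mem (rels := rels 10) (Or.inl (Or.inl ⟨⟨(p, q), h⟩, rfl⟩))
  simp only [map_mul] at this
  exact this

lemma sc {p q m t : ℕ} (u v : ℕ) {h1 h2} (h3 : 1 ≤ u ∧ u < v ∧ v ≤ 10)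
    (h : p ≤ m ∧ t ≤ q ∧ u = p + q - t ∧ v = p + q - m) :
    s p q h1 * s m t h2 * s p q h1 = s u v h3 := by
  have := PresentedGroup.one_of_mem (rels := rels 10) (Or.inr ⟨⟨(p, q), h1⟩, ⟨(m, t), h2⟩,
    ⟨(u, v), h3⟩, h.1, h.2.1, Prod.ext h.2.2.1 h.2.2.2, rfl⟩)
  simp only [map_mul, map_inv, mul_inv_eq_one] at this
  change s p q h1 * s m t h2 = s u v h3 * s p q h1 at this
  rw [this, mul_assoc, ss, mul_one]

lemma sd {p q m t : ℕ} {h1 h2} (h : q < m ∨ t < p) :
    s p q h1 * s m t h2 * s p q h1 = s m t h2 := by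
  have := PresentedGroup.one_of_mem (rels := rels 10) (Or.inl (Or.inr ⟨⟨(p, q), h1⟩, ⟨(m, t), h2⟩,
    h, rfl⟩))
  simp only [map_mul, map_inv, mul_inv_eq_one] at this
  change s p q h1 * s m t h2 = s m t h2 * s p q h1 at this
  rw [this, mul_assoc, ss, mul_one]

def K : Subgroup (J 10) :=
  Subgroup.closure {s 9 10 (by decide), s 1 8 (by decide), s 5 8 (by decide), s 1 4 (by decide), s 7 8 (by decide), s 5 6 (by decide), s 3 4 (by decide), s 1 2 (by decide)}

lemma K_fin : (K : Set (J 10)).Finite := by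
  have h0 : (Subgroup.closure (insert (s 1 2 (by decide)) ∅) : Set (J 10)).Finite :=
    ext_fin _ _ (by simp) ss (by simp)
  rw [insert_empty_eq] at h0
  refine ext_fin _ _ (ext_fin _ _ (ext_fin _ _ (ext_fin _ _ (ext_fin _ _ (ext_fin _ _
    (ext_fin _ _ h0 ss ?_) ss ?_) ss ?_) ss ?_) ss ?_) ss ?_) ss ?_
  all_goals
    intro g hg
    apply Subgroup.subset_closure
    simp only [Set.mem_insert_iff, Set.mem_singleton_iff] at hg
  · subst hg; rw [sd (by decide)]; simp
  · rcases hg with rfl | rfl <;> rw [sd (by decide)] <;> simp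
  · rcases hg with rfl | rfl | rfl <;> rw [sd (by decide)] <;> simp
  · rcases hg with rfl | rfl | rfl | rfl
    · rw [sd (by decide)]; simp
    · rw [sd (by decide)]; simp
    · rw [sc 1 2 (by decide) (by decide)]; simp
    · rw [sc 3 4 (by decide) (by decide)]; simp
  · rcases hg with rfl | rfl | rfl | rfl | rfl
    · rw [sd (by decide)]; simp
    · rw [sc 5 6 (by decide) (by decide)]; simp
    · rw [sc 7 8 (by decide) (by decide)]; simp
    · rw [sd (by decide)]; simp
    · rw [sd (by decide)]; simp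
  · rcases hg with rfl | rfl | rfl | rfl | rfl | rfl
    · rw [sc 1 4 (by decide) (by decide)]; simp
    · rw [sc 5 8 (by decide) (by decide)]; simp
    · rw [sc 1 2 (by decide) (by decide)]; simp
    · rw [sc 3 4 (by decide) (by decide)]; simp
    · rw [sc 5 6 (by decide) (by decide)]; simp
    · rw [sc 7 8 (by decide) (by decide)]; simp
  · rcases hg with rfl | rfl | rfl | rfl | rfl | rfl | rfl <;> rw [sd (by decide)] <;> simp

def r (p q i : ℕ) : ℕ := if p ≤ i ∧ i ≤ q then p + q - i else i

def rv (a : Gen 10) : Equiv.Perm ℕ :=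
  Function.Involutive.toPerm (r a.1.1 a.1.2) fun i => by unfold r; split_ifs <;> omega

lemma hrel : ∀ x ∈ rels 10, FreeGroup.lift rv x = 1 := by
  rintro x ((⟨a, rfl⟩ | ⟨a, b, h, rfl⟩) | ⟨a, b, c, h, h', hc, rfl⟩)
  · simp only [map_mul, FreeGroup.lift_apply_of]
    ext i; simp [rv, r]; split_ifs <;> omega
  · simp only [map_mul, map_inv, FreeGroup.lift_apply_of, mul_inv_eq_one]
    ext i; simp [rv, r]; split_ifs <;> omega
  · simp only [map_mul, map_inv, FreeGroup.lift_apply_of, mul_inv_eq_one]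
    have := b.2
    ext i; simp [rv, r, hc]; split_ifs <;> omega

def ρ : J 10 →* Equiv.Perm ℕ := PresentedGroup.toGroup hrel

lemma ρ_s (p q : ℕ) (h) (i : ℕ) : ρ (s p q h) i = r p q i := by
  simp [ρ, s, rv]

def c {G : Type} [Group G] (b : Bool) (g : G) : G := if b then g else 1
def c' (b : Bool) (p q i : ℕ) : ℕ := if b then r p q i else i

lemma ρ_c (b : Bool) (p q : ℕ) (h) (i : ℕ) : ρ (c b (s p q h)) i = c' b p q i := by
  cases b <;> simp [c, c', ρ_s]

abbrev B8 := Bool × Bool × Bool × Bool × Bool × Bool × Bool × Bool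

def el (b : B8) : J 10 := c b.1 (s 9 10 (by decide)) * (c b.2.1 (s 1 8 (by decide)) * (c b.2.2.1 (s 5 8 (by decide)) *
  (c b.2.2.2.1 (s 1 4 (by decide)) * (c b.2.2.2.2.1 (s 7 8 (by decide)) * (c b.2.2.2.2.2.1 (s 5 6 (by decide)) *
  (c b.2.2.2.2.2.2.1 (s 3 4 (by decide)) * c b.2.2.2.2.2.2.2 (s 1 2 (by decide))))))))

def pl (b : B8) (i : ℕ) : ℕ := c' b.1 9 10 (c' b.2.1 1 8 (c' b.2.2.1 5 8 (c' b.2.2.2.1 1 4
  (c' b.2.2.2.2.1 7 8 (c' b.2.2.2.2.2.1 5 6 (c' b.2.2.2.2.2.2.1 3 4 (c' b.2.2.2.2.2.2.2 1 2 i)))))))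

lemma ρ_el (b : B8) (i : ℕ) : ρ (el b) i = pl b i := by
  simp only [el, pl, map_mul, Equiv.Perm.mul_apply, ρ_c]

def code (b : B8) : ℕ := pl b 1 + 16 * (pl b 3 + 16 * (pl b 5 + 16 * (pl b 7 + 16 * pl b 9)))

lemma code_inj : Function.Injective code := by
  have : ((Finset.univ : Finset B8).image code).card = 256 := by decide +kernel
  have h2 := Finset.card_image_iff.1 (this.trans (by simp : 256 = (Finset.univ : Finset B8).card))
  exact fun x y h => h2 (by simp) (by simp) h

lemma el_mem (b : B8) : el b ∈ K := by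
  have : ∀ (b : Bool) (g : J 10), g ∈ K → c b g ∈ K := fun b g h => by
    cases b <;> simp [c, h]
  unfold el
  refine mul_mem ?_ (mul_mem ?_ (mul_mem ?_ (mul_mem ?_ (mul_mem ?_ (mul_mem ?_
    (mul_mem ?_ ?_)))))) <;> exact this _ _ (Subgroup.subset_closure (by simp))

theorem result : ∃ (n : ℕ) (G : Type) (_ : Group G), 2 ≤ n ∧ Finite G ∧
    (∃ f : G →* J n, Function.Injective f) ∧
    ∀ l : List ℕ, (∀ r ∈ l, 2 ≤ r) → 2 * l.prod ≤ n → ¬ ∃ f : G →* W l, Function.Injective f := by
  haveI : Finite K := K_fin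
  refine ⟨10, K, inferInstance, by norm_num, inferInstance, ⟨K.subtype, K.subtype_injective⟩, ?_⟩
  rintro l h1 h2 ⟨f, hf⟩
  haveI : Finite (W l) := Nat.finite_of_card_ne_zero (cardW_pos l).ne'
  have hinj : Function.Injective fun b : B8 => f ⟨el b, el_mem b⟩ := by
    intro x y h
    have : el x = el y := congrArg Subtype.val (hf h)
    apply code_inj
    simp only [code, ← ρ_el, this]
  have := Nat.card_le_card_of_injective _ hinj
  have h3 := cardW_le l h1 h2
  simp at this
  omega

end Pool.Agent.Results.MP_2b0b8a_al.Bigger
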